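import Mathlib
import Pool.Agent.Run7.h204.LgmFin

/-! Explicit polynomials which show that no sequence of odd polynomial degree is a Legendre
multiplier sequence. The first part of the proof of `tail` is adapted from
`Run7.h204.Lgm.main`. -/

open Polynomial Finset Filter Topology

namespace Run7.h987.LegW

open Run7.h204.Lgm

/-- the multiplier operator after reflection, and the expansion of the test polynomials -/
theorem Om_expand {Q A B : ℝ[X]}
    (hAB : ∀ x : ℝ, Q.eval x = (2 * x + 1) * A.eval (x * (x + 1)) + B.eval (x * (x + 1)))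
    (N M : ℕ) : ∃ (n : ℕ) (a : ℕ → ℝ),
      (((X : ℝ[X]) ^ N * (1 - X) ^ M).comp ell = ∑ k ∈ range n, a k • legendre k) ∧
      Om A B (X ^ N * (1 - X) ^ M) = (∑ k ∈ range n, (Q.eval (k : ℝ) * a k) • legendre k).comp
        (C 2 * X - 1) := by
  set f : ℝ[X] := X ^ N * (1 - X) ^ M with hf
  obtain ⟨a, ha⟩ := expand (f.natDegree + 1) f (fun m hm =>
    coeff_eq_zero_of_natDegree_lt (by omega))
  set n := f.natDegree + 1
  refine ⟨n, a, ?_, ?_⟩
  · conv_lhs => rw [ha]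
    rw [sum_comp']
    refine sum_congr rfl fun k _ => ?_
    rw [smul_comp, legendre_eq]
  · conv_lhs => rw [ha]
    rw [Om_sum, sum_comp']
    refine sum_congr rfl fun k _ => ?_
    rw [smul_comp, legendre_eq, comp_assoc, ell_comp, ← Rf_apply, Rf_sL, smul_smul, hAB]
    congr 1
    ring

theorem real_comp {p : ℝ[X]} (h3 : OnlyRealZeros p) : OnlyRealZeros (p.comp (C 2 * X - 1)) := by
  rcases h3 with h3 | h3
  · left; rw [h3, zero_comp]
  · right
    intro z hz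
    rw [aeval_comp] at hz
    have h5 := h3 _ hz
    have h6 : aeval z (C 2 * X - 1 : ℝ[X]) = 2 * z - 1 := by simp
    rw [h6] at h5
    simp at h5
    exact h5

theorem tail {Q A B : ℝ[X]} {e : ℕ} (he : Q.natDegree = 2 * e + 1) (hB : B.natDegree ≤ e)
    (hA : A.natDegree ≤ e)
    (hAc : A.coeff e = Q.coeff (2 * e + 1) / 2) :
    ∀ᶠ N : ℕ in atTop, ¬ OnlyRealZeros (Om A B (X ^ N * (1 - X) ^ (2 * e + 3))) := by
  by_contra hcon
  rw [not_eventually] at hcon
  have hfr : ∃ᶠ N : ℕ in atTop, OnlyRealZeros (Om A B (X ^ N * (1 - X) ^ (2 * e + 3))) :=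
    hcon.mono fun N hN => not_not.1 hN
  have hb : A.coeff e ≠ 0 := by
    rw [hAc, ← he]
    intro h0
    have h1 : Q.leadingCoeff = 0 := by
      have : Q.coeff Q.natDegree = 0 := by linarith
      exact this
    rw [leadingCoeff_eq_zero] at h1
    rw [h1, natDegree_zero] at he
    omega
  set M := 2 * e + 3 with hM
  set G : ℕ → ℕ → ℝ := fun r N => (aeval Lop A (K (X ^ N * (1 - X) ^ M))).coeff r / om M N
    with hG
  have hGt : ∀ r, Tendsto (fun N : ℕ => G r N / (N : ℝ) ^ (r + e)) atTop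
      (𝓝 (A.coeff e * tt e r * Pi' M (r + e))) := fun r => (PT_H A e r hA M).tendsto
  set c : ℕ → ℝ := fun r => A.coeff e * tt e r * Pi' M (r + e) with hc
  have hineq : ∀ N : ℕ, OnlyRealZeros (Om A B (X ^ N * (1 - X) ^ M)) →
      ((e : ℝ) + 2) * (G e N * G (e + 2) N) ≤ ((e : ℝ) + 1) * G (e + 1) N ^ 2 := by
    intro N hN
    have h1 := newton hN e
    rw [Om_coeff hB N M e (by omega), Om_coeff hB N M (e + 1) (by omega),
      Om_coeff hB N M (e + 2) (by omega)] at h1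
    have hpos := om_pos M N
    have h2 : (om M N) ^ 2 * (((e : ℝ) + 2) * (G e N * G (e + 2) N)) ≤
        (om M N) ^ 2 * (((e : ℝ) + 1) * G (e + 1) N ^ 2) := by
      calc _ = ((e : ℝ) + 2) * (om M N * G e N * (om M N * G (e + 2) N)) := by ring
        _ ≤ ((e : ℝ) + 1) * (om M N * G (e + 1) N) ^ 2 := h1
        _ = _ := by ring
    exact le_of_mul_le_mul_left h2 (by positivity)
  have hlim : ((e : ℝ) + 2) * (c e * c (e + 2)) ≤ ((e : ℝ) + 1) * c (e + 1) ^ 2 := by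
    have t1 := ((hGt e).mul (hGt (e + 2))).const_mul ((e : ℝ) + 2)
    have t2 := ((hGt (e + 1)).pow 2).const_mul ((e : ℝ) + 1)
    refine le_of_tendsto_of_tendsto_of_frequently t1 t2 ?_
    refine (hfr.and_eventually (eventually_ge_atTop 1)).mono ?_
    rintro N ⟨hNr, hN⟩
    have hN0 : (0 : ℝ) < N := by exact_mod_cast hN
    have hh := hineq N hNr
    have e1 : ((e : ℝ) + 2) * (G e N / (N : ℝ) ^ (e + e) * (G (e + 2) N / (N : ℝ) ^ (e + 2 + e)))
        = (((e : ℝ) + 2) * (G e N * G (e + 2) N)) / (N : ℝ) ^ (4 * e + 2) := by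
      have : (N : ℝ) ^ (4 * e + 2) = (N : ℝ) ^ (e + e) * (N : ℝ) ^ (e + 2 + e) := by
        rw [← pow_add]; congr 1; ring
      rw [this]
      field_simp
    have e2 : ((e : ℝ) + 1) * (G (e + 1) N / (N : ℝ) ^ (e + 1 + e)) ^ 2
        = (((e : ℝ) + 1) * G (e + 1) N ^ 2) / (N : ℝ) ^ (4 * e + 2) := by
      have : (N : ℝ) ^ (4 * e + 2) = ((N : ℝ) ^ (e + 1 + e)) ^ 2 := by
        rw [← pow_mul]; congr 1; ring
      rw [this, div_pow]
      ring
    rw [e1, e2]
    exact div_le_div_of_nonneg_right hh (by positivity)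
  -- relations between consecutive limits
  have rel : ∀ r : ℕ, ((r : ℝ) + 1) ^ 2 * (2 * (M : ℝ) - 3 - 2 * ((r : ℝ) + e)) * c (r + 1) =
      (2 * ((r : ℝ) + e) + 3) ^ 2 / 2 * c r := by
    intro r
    have h1 := tt_rec e r
    have h2 := Pi_rec M (r + e)
    have e3 : r + 1 + e = r + e + 1 := by ring
    simp only [hc]
    rw [e3]
    push_cast at h2
    calc ((r : ℝ) + 1) ^ 2 * (2 * (M : ℝ) - 3 - 2 * ((r : ℝ) + e)) *
          (A.coeff e * tt e (r + 1) * Pi' M (r + e + 1))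
        = A.coeff e * (((r : ℝ) + 1) ^ 2 * tt e (r + 1)) *
          ((2 * (M : ℝ) - 3 - 2 * ((r : ℝ) + e)) * Pi' M (r + e + 1)) := by ring
      _ = A.coeff e * (-((r : ℝ) + e + 3 / 2) * tt e r) *
          ((-3 - 2 * ((r : ℝ) + e)) * Pi' M (r + e)) := by rw [h1, h2]
      _ = _ := by ring
  have r1 := rel e
  have r2 := rel (e + 1)
  rw [hM] at r1 r2
  push_cast at r1 r2
  have hy : c (e + 1) ≠ 0 := by
    simp only [hc]
    exact mul_ne_zero (mul_ne_zero hb (tt_ne_zero _ _)) (Pi_ne_zero _ _)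
  have k1 : ((e : ℝ) + 1) ^ 2 * 3 * c (e + 1) = (4 * (e : ℝ) + 3) ^ 2 / 2 * c e := by
    linear_combination r1
  have k2 : ((e : ℝ) + 2) ^ 2 * c (e + 2) = (4 * (e : ℝ) + 5) ^ 2 / 2 * c (e + 1) := by
    have : c (e + 1 + 1) = c (e + 2) := rfl
    rw [this] at r2
    linear_combination r2
  set x := c e
  set y := c (e + 1)
  set z := c (e + 2)
  have hy2 : 0 < y ^ 2 := by positivity
  have he0 : (0 : ℝ) ≤ e := Nat.cast_nonneg e
  set E : ℝ := (e : ℝ)
  -- (E+2) (4E+3)^2 x * (E+2) z ... 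
  have k3 : (4 * E + 3) ^ 2 * ((E + 2) * (E + 2) * (x * z)) =
      3 * (E + 1) ^ 2 * (4 * E + 5) ^ 2 * y ^ 2 := by
    have : (4 * E + 3) ^ 2 * ((E + 2) * (E + 2) * (x * z)) =
        2 * ((4 * E + 3) ^ 2 / 2 * x) * ((E + 2) ^ 2 * z) := by ring
    rw [this, ← k1, k2]; ring
  have k4 : (4 * E + 3) ^ 2 * ((E + 2) * (E + 2) * (x * z)) ≤
      (4 * E + 3) ^ 2 * ((E + 2) * ((E + 1) * y ^ 2)) := by
    have : (E + 2) * (E + 2) * (x * z) = (E + 2) * ((E + 2) * (x * z)) := by ring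
    rw [this]
    have h5 : 0 ≤ (E + 2) := by linarith
    have h6 : 0 ≤ (4 * E + 3) ^ 2 := by positivity
    exact mul_le_mul_of_nonneg_left (mul_le_mul_of_nonneg_left hlim h5) h6
  rw [k3] at k4
  have k5 : ((E + 1) * y ^ 2) * (3 * (E + 1) * (4 * E + 5) ^ 2) ≤
      ((E + 1) * y ^ 2) * ((4 * E + 3) ^ 2 * (E + 2)) := by
    calc _ = 3 * (E + 1) ^ 2 * (4 * E + 5) ^ 2 * y ^ 2 := by ring
      _ ≤ _ := k4
      _ = _ := by ring
  have k6 := le_of_mul_le_mul_left k5 (by positivity)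
  nlinarith [he0, mul_nonneg he0 he0, mul_nonneg (mul_nonneg he0 he0) he0]


/-- For `Q` of odd degree `2 e + 1` and all large `N`, the multiplier operator of `Q` maps the
real-rooted polynomial `(1 - x) ^ N (1 + x) ^ (2 e + 3)` to a polynomial with a non-real zero. -/
theorem witnesses (Q : ℝ[X]) (e : ℕ) (he : Q.natDegree = 2 * e + 1) :
    ∃ N₀ : ℕ, ∀ N, N₀ ≤ N → ∃ (n : ℕ) (a : ℕ → ℝ),
      ((1 - X : ℝ[X]) ^ N * (1 + X) ^ (2 * e + 3) = ∑ k ∈ range n, a k • legendre k) ∧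
      ∃ z : ℂ, z.im ≠ 0 ∧ aeval z (∑ k ∈ range n, (Q.eval (k : ℝ) * a k) • legendre k) = 0 ∧
        (∑ k ∈ range n, (Q.eval (k : ℝ) * a k) • legendre k) ≠ 0 := by
  obtain ⟨A, B, hA, hB, hAc, hAB⟩ := decomp e Q he.le
  obtain ⟨N₀, hN₀⟩ := eventually_atTop.1 (tail he hB hA hAc)
  refine ⟨N₀, fun N hN => ?_⟩
  obtain ⟨n, a, h1, h2⟩ := Om_expand hAB N (2 * e + 3)
  have h3 : ¬ OnlyRealZeros (∑ k ∈ range n, (Q.eval (k : ℝ) * a k) • legendre k) := by
    intro h
    apply hN₀ N hN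
    rw [h2]
    exact real_comp h
  unfold OnlyRealZeros at h3
  push Not at h3
  obtain ⟨hne, z, hz, hz'⟩ := h3
  have hell : ell = C (1 / 2) * (1 - X) := by unfold ell; rfl
  have e1 : ((1 - X : ℝ[X]) ^ N * (1 + X) ^ (2 * e + 3)) =
      (2 : ℝ) ^ (N + (2 * e + 3)) • (((X : ℝ[X]) ^ N * (1 - X) ^ (2 * e + 3)).comp ell) := by
    rw [mul_comp, pow_comp, pow_comp, X_comp, sub_comp, one_comp, X_comp, hell]
    have e2 : (1 : ℝ[X]) - C (1 / 2) * (1 - X) = C (1 / 2) * (1 + X) := by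
      have : (1 : ℝ[X]) = C (1 / 2) + C (1 / 2) := by rw [← C_add, ← C_1]; norm_num
      linear_combination this
    rw [e2, mul_pow, mul_pow, smul_eq_C_mul, ← C_pow, ← C_pow]
    have e3 : C ((2 : ℝ) ^ (N + (2 * e + 3))) * C ((1 / 2 : ℝ) ^ N) *
        C ((1 / 2 : ℝ) ^ (2 * e + 3)) = 1 := by
      rw [← C_mul, ← C_mul, ← C_1, mul_assoc, ← pow_add, ← mul_pow]
      norm_num
    linear_combination (-(1 - X) ^ N * (1 + X) ^ (2 * e + 3)) * e3
  refine ⟨n, fun k => 2 ^ (N + (2 * e + 3)) * a k, ?_, z, hz', ?_, ?_⟩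
  · rw [e1, h1, smul_sum]
    refine sum_congr rfl fun k _ => ?_
    rw [smul_smul]
  · have e4 : (∑ k ∈ range n, (Q.eval (k : ℝ) * (2 ^ (N + (2 * e + 3)) * a k)) • legendre k) =
        (2 : ℝ) ^ (N + (2 * e + 3)) • ∑ k ∈ range n, (Q.eval (k : ℝ) * a k) • legendre k := by
      rw [smul_sum]
      refine sum_congr rfl fun k _ => ?_
      rw [smul_smul]
      congr 1
      ring
    rw [e4, map_smul, hz, smul_zero]
  · have e4 : (∑ k ∈ range n, (Q.eval (k : ℝ) * (2 ^ (N + (2 * e + 3)) * a k)) • legendre k) =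
        (2 : ℝ) ^ (N + (2 * e + 3)) • ∑ k ∈ range n, (Q.eval (k : ℝ) * a k) • legendre k := by
      rw [smul_sum]
      refine sum_congr rfl fun k _ => ?_
      rw [smul_smul]
      congr 1
      ring
    rw [e4]
    exact smul_ne_zero (by positivity) hne

end Run7.h987.LegW
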